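import Pool.Agent.MP_5d9b3c_ag.P3O.Kit
import Pool.Agent.MP_ee8c61_ag.M3KV.IKvl

/-! The order of the leading coefficient of the polynomial on ordinary curves. -/

namespace Pool.Agent.MP_5d9b3c_ag.P3O

open Pool.Agent.MP_ee8c61_ag
open M3 M3E M3K M3RESID M3F H59 Finset

/-- The order of the leading coefficient modulo the multiplicity. -/
theorem ord_lead {N : ℕ} {k : Type} [Field k] [Algebra ℂ k] {P : Pl (KK N) k} {Γ : DV k}
    {f : Po N} {W : Mod N} {o : W.J} (B : Bas f W) (h : Lv W o P Γ) {t : KK N}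
    (ht : P.o.v t = 1) :
    ∃ n : ℤ, Γ.v (P.π (ip N f / t ^ W.a o)) = ∑ i, W.aa i * W.tr P Γ i + W.a o * n := by
  obtain ⟨b, hb⟩ := h.cov
  have η0 := W.η_ne b o
  have t0 : t ≠ 0 := fun e => by simp [e, P.o.zero] at ht
  have η1 : P.o.v (W.η b o) = 1 := by
    have := h.bas.v_mon b o ((1 : ℤ) • W.e o) (h.in_o hb)
    rw [h.bas.mon_e, zpow_one, one_smul, W.e_apply, if_pos rfl] at this
    rw [h.eq, this]
  have hu : Un P.o.O (W.η b o / t) :=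
    P.o.un_O.2 ⟨div_ne_zero η0 t0, by rw [P.o.div η0 t0, η1, ht, sub_self]⟩
  have hg : W.Gen (lift P Γ) (-W.aa + (W.a o : ℤ) • W.e o) (ip N f / W.η b o ^ W.a o) := by
    rw [h.bas.gen_iff b _ _ _ hb, h.bas.mon_add, h.bas.mon_e, zpow_natCast, mul_comm (W.mon b _),
      ← mul_assoc, div_mul_cancel₀ _ (pow_ne_zero _ η0)]
    exact B.gen_f _ b hb
  obtain ⟨h1, h2, h3⟩ := (h.gen_iff (by simp [Mod.aa, W.e_apply])).1 hg
  have h4 := (pi_ne_iff hu.2.1).2 hu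
  refine ⟨Γ.v (P.π (W.η b o / t)), ?_⟩
  rw [show ip N f / t ^ W.a o = ip N f / W.η b o ^ W.a o * (W.η b o / t) ^ W.a o by
      rw [div_pow, div_mul_div_cancel₀ (pow_ne_zero _ η0)],
    P.mul _ h1 _ (show _ ∈ P.o.O from pow_mem hu.2.1 _), pi_pow hu.2.1,
    Γ.mul _ _ h2 (pow_ne_zero _ h4), h3, ← zpow_natCast, Γ.zpow, ← sum_neg_distrib]
  refine congrArg (· + _) (sum_congr rfl fun i _ => ?_)
  by_cases e : i = o
  · rw [e, h.tr_o, mul_zero, mul_zero, neg_zero]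
  · simp [W.e_apply, e]

theorem rowOrd : OfOrd := by
  intro hE hK hNul f la b β Q M r Kf Bo o X Y Y' H t ht Γ hΓ hn0 hβ0 hex
  classical
  have hn : ¬Null (Bo.C.sd la b o X Y').x (Bo.C.sd la b o X Y').S1 Γ := fun q =>
    hn0 ((hNul f la b β Q M r Kf Bo o X Y Y' H).2 Γ hΓ q)
  have h := H.sit
  have hX := H.av
  have hY := H.as
  have K := hK.ka 3 f M Bo.C h.ok
  have hβ1 := fun O => (H.β_eq K O Γ).symm.trans (hβ0 O)
  have hrp := fun {j} (hj : j ≠ o) => hβ1 (H.cl.rp hj)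
  replace hex : (Bo.C.sd la b o X Y').ex Γ = 1 := hex
  replace hΓ : M3.Cv (Bo.C.sd la b o X Y').x Γ := hΓ
  replace hrp : ∀ {j} (_ : j ≠ o), ∑ l : Bo.C.Nb o, cs r (r j) l.1 *
    (Bo.C.sd la b o X Y').β l Γ = 0 := hrp
  clear hβ1 hβ0 hn0 H
  revert Y'
  generalize Bo.C = C at h K ⊢
  clear Y
  intro Y hn hY hex hΓ hrp
  have B := hE.bas 3 f C.W C.ok
  have hC := hE.cv 3 f C.W C.ok
  have hP : (M.v o).pl.o = C.W.v (C.D.e o) := (C.D.v o).symm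
  have hL : Lv C.W (C.D.e o) (M.v o).pl Γ := lv_of C.ok B.toBas1 hP hΓ.bas
  have h0 : C.W.ex la (C.D.e o) = 0 := by
    rw [RIT.ex_W C K, Pi.add_apply, ((hK.kb 3 f M C h.ok).alive o).1 h.alive, h.alive, h.zero,
      add_zero]
  have hc : Y.c1 (C.D.e o) = 0 := by
    have a : (M.a o : ℚ) ≠ 0 := Nat.cast_ne_zero.2 (h.ok.pos o).ne'
    have q := congrFun hY.c1 (C.D.e o)
    rw [Mod.q_apply, Pi.smul_apply, h.alive] at q
    simpa [Ch.pt, Ch.hp, Mod.aa, h.zero, div_mul_cancel₀ _ a] using q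
  have ha : C.W.a (C.D.e o) = M.a o := by
    have q := congrFun K.aa (C.D.e o)
    rw [h.alive] at q
    simpa [Mod.aa] using q.symm
  obtain ⟨p, hp⟩ := hΓ.sur
  have hN : Nn C.W (lift (M.v o).pl Γ) Y.c1 := by
    by_contra e
    refine hn ⟨fun l q => e ?_, fun s hs s' hs' q => e (hL.nn_of hY.T1 hc hs hs' q)⟩
    obtain ⟨g, g1, g2⟩ := hY.T1.2 _ hL.ov
    obtain ⟨a, ha⟩ := hL.cov
    refine ⟨g, hY.T1.1 g g1, xx 3 l * g, fun V hV a ha => ?_, g2, ?_⟩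
    · rw [mul_assoc]
      exact mul_mem (hV _) (hY.T1.1 g g1 V hV a ha)
    · rw [mul_div_cancel_right₀ _ (left_ne_zero_of_mul (g2 a ha).1)]
      exact (hL.nc_x l).1 q
  obtain ⟨z, hz⟩ := ord_lead B hL (t := t) ht
  rw [ha] at hz
  rw [hz]
  refine dvd_add ?_ (dvd_mul_right _ _)
  obtain ⟨s, s1, s', s2, s3, s4⟩ := id hN
  rcases hL.dich hK.up C.ok (fun a ha => (hK.ng0 3 f C.W C.ok).lc _ _ a s s1 s' s2 ha s3) s4 with
    ⟨i, hi⟩ | hi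
  swap
  · exact ⟨0, (hL.sum_off hi C.W.aa).trans (mul_zero _).symm⟩
  refine Dvd.dvd.trans ?_ (dvd_of_eq (hL.sum_cv hC ⟨p, hp⟩ hi C.W.aa).symm)
  have hβ : ∀ j : C.Nb o, (C.sd la b o X Y).β j Γ = C.P (M.q (M.e j.1)) i := fun j =>
    hL.sum_cv hC ⟨p, hp⟩ hi _
  have hx : (C.sd la b o X Y).ex Γ = dl C i + (C.sd la b o X Y).α Γ := by
    refine (RIT.eps_eq ⟨p, hp⟩ (exp_isCv C.ok hP h0 hX.rd hp hi)).trans ?_
    rw [RIT.ex_W C K, Pi.add_apply, RIT.P_sum C K h.zero]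
    exact congrArg _ (sum_congr rfl fun j _ => by rw [hβ]; rfl)
  have h6 : ∀ l : C.Nb o, 0 ≤ (C.sd la b o X Y).β l Γ := fun l => by
    rw [hβ]
    refine K.mono _ (fun l' => ?_) i
    show (0 : ℚ) ≤ (M.e l.1 l' : ℤ)
    rw [Mod.e_apply]
    split_ifs <;> simp
  have h7 : ∀ j : C.Nb o, (C.sd la b o X Y).β j Γ = 0 := fun j => by
    have q := (sum_eq_zero_iff_of_nonneg fun (l : C.Nb o) _ =>
      mul_nonneg (cs_nonneg (r := r) (r j.1) l.1) (h6 l)).1 (hrp j.2.1) j (mem_univ j)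
    rwa [cs, if_pos rfl, one_mul] at q
  have h8 : ∀ d : M.J → ℚ, d o = 0 → C.P d i = 0 := fun d hd => by
    rw [M3CH.RISem.P_sum C o K.dead d hd, Finset.sum_apply]
    exact sum_eq_zero fun j _ => by rw [Pi.smul_apply, ← hβ, h7, smul_zero]
  rw [show (C.sd la b o X Y).α Γ = 0 from
    sum_eq_zero fun j _ => mul_eq_zero_of_right _ (h7 j), add_zero, hex] at hx
  obtain ⟨c, L, n, h1, h2⟩ := M3KV.pz_of hE hK h.ok hY hL.ov hN
  obtain ⟨e, he, h3, h4⟩ := (M3KV.block_of hE.bas hE.nb hE.der hE.cv hE.l0).1 3 f C.W _ _ i _ C.ok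
    (pdOf_ok hE hK.ng0 hK.ka hK.kb h.ok h1 h.alive) hi
    (pdOf_nn hE hK.ng0 hK.ka hK.nn h.ok h1 h.alive hi h2)
  rw [pdOf_dl hE h.ok, ← hx, h8 _ (by simp [Mod.dd]), add_zero, eq_div_iff
    (Nat.cast_ne_zero.2 he.ne'), one_mul] at h3
  obtain ⟨m, hm⟩ := h4 (C.W.e (C.D.e o))
  rw [pdOf_P, pf_e hE h.ok, h3, div_one] at hm
  have h5 := h8 (M.q M.aa - (M.a o : ℚ) • M.q (M.e o)) (by simp [Mod.aa, Mod.e_apply])
  rw [map_sub, map_smul, K.aa, Pi.sub_apply, Pi.smul_apply, hm, Mod.q_apply, smul_eq_mul,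
    sub_eq_zero] at h5
  exact ⟨m, by exact_mod_cast h5⟩

end Pool.Agent.MP_5d9b3c_ag.P3O
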