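import Pool.Agent.MP_5d9b3c_ag.P3O.Kit
import Pool.Agent.MP_ee8c61_ag.M3K.IPen

/-! The invariant pencil on a divisor that is contracted to a point. -/

namespace Pool.Agent.MP_5d9b3c_ag.P3O

open Pool.Agent.MP_ee8c61_ag
open M3 M3E M3K M3RESID M3F H59 Finset

namespace RPen

variable {f : Po 3} {M : Mod 3} {r : M.J → M.J} {K : Subfield (KK 3)} {C : Ch f M} {V : Vl 3}

/-- A generator in `K`. -/
theorem ex_K (hE : EOut) (hN : SNg0) (hD : Dsc M r K) (hV : Ov V) {c : M.J → ℤ} {c' : C.W.J → ℤ}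
    (hc : Iv r c) (h : Mob C c c') : ∃ s ∈ M.H c, s ∈ K ∧ C.W.Gen V c' s := by
  have B := hE.bas 3 f C.W C.ok
  have e1 : M.H c = C.W.H c' := by simpa using h.H 1
  obtain ⟨g, hg, hG⟩ := (hN 3 f C.W C.ok).ex _ V h.free hV
  obtain ⟨b, hb⟩ := C.ok.cov V hV
  by_contra! hn
  have key : ∀ x ∈ Submodule.span ℂ (M.H c ∩ K),
      x * C.W.mon b c' ∈ V ∧ ¬Un V (x * C.W.mon b c') := fun x hx => by
    induction hx using Submodule.span_induction with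
    | mem x hx => exact ⟨(e1 ▸ hx.1) V hV b hb, fun q => hn x hx.1 hx.2 ((B.gen_iff b V _ _ hb).2 q)⟩
    | zero => rw [zero_mul]; exact ⟨zero_mem _, not_un_zero⟩
    | add x y _ _ hx hy => rw [add_mul]; exact ⟨add_mem hx.1 hy.1, not_un_add hx.1 hy.1 hx.2 hy.2⟩
    | smul a x _ hx =>
      rw [Algebra.smul_def, mul_assoc]
      exact ⟨mul_mem (cst_mem hV a) hx.1, not_un_mul (cst_mem hV a) hx.1 hx.2⟩
  exact (key g (hD c hc g (e1 ▸ hg))).2 (hG b hb)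

theorem pen_sec (hE : EOut) (hN : SNg0) (hA : SKa) (hM : M.OK f) (hD : Dsc M r K) (hV : Ov V)
    (hx : ∀ l, ¬Tc V (xx 3 l)) {d u : M.J → ℚ} (hd : Iv r d) (hu : Iv r u)
    (h : Triv C.W V (C.P d)) {δ₁ δ₂ : ℚ} (p₁ : 0 < δ₁) (p₂ : 0 < δ₂) (h₁ : d + δ₁ • u ∈ C.U)
    (h₂ : d + δ₂ • (-u) ∈ C.U) :
    ∃ (c₁ : M.J → ℤ) (c₁' : C.W.J → ℤ) (c₂ : M.J → ℤ) (c₂' : C.W.J → ℤ) (n : ℚ) (s₁ s₂ : KK 3),
      0 < n ∧ Mob C c₁ c₁' ∧ Mob C c₂ c₂' ∧ M.q c₁ - M.q c₂ = n • u ∧ s₁ ∈ M.H c₁ ∧ s₂ ∈ M.H c₂ ∧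
      s₁ / s₂ ∈ K ∧ ∀ V', V' ≤ V → Ov V' → C.W.Gen V' c₁' s₁ ∧ C.W.Gen V' c₂' s₂ := by
  have A := hA 3 f M C hM
  have B := hE.bas 3 f C.W C.ok
  have Aq := hE.aq 3 f C.W C.ok
  have key : ∀ (u : M.J → ℚ) (δ δ' : ℚ), Iv r u → 0 < δ → 0 < δ' → d + δ' • (-u) ∈ C.U →
      ∀ (a : ℕ) c c', M.q c = a • (d + δ • u) → Mob C c c' →
      ∃ s ∈ M.H c, s ∈ K ∧ ∀ V', V' ≤ V → Ov V' → C.W.Gen V' c' s := by
    intro u δ δ' h0 h1 h2 h4 a c c' e hc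
    obtain ⟨s, hs, hK, hG⟩ := ex_K hE hN hD hV (Iv.of_q (e ▸ (hd.add (h0.smul δ)).nsmul a)) hc
    have e1 : M.H c = C.W.H c' := by simpa using hc.H 1
    refine ⟨s, hs, hK,
      Triv.gen hE hN C.ok hV hx (x := C.P (d + δ • u)) (a := a) ?_
        (Aq.smul' _ (δ / δ') (div_pos h1 h2).le (A.semi _ h4)) (by rw [hc.eq, e, map_nsmul])
        (e1 ▸ hs) hG⟩
    rw [← map_smul, ← map_add, show d + δ • u + (δ / δ') • (d + δ' • -u) = (1 + δ / δ') • d by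
      rw [smul_add, smul_smul, div_mul_cancel₀ _ h2.ne', add_smul, one_smul, smul_neg]; abel,
      map_smul]
    exact h.smul B _
  obtain ⟨m₁, c₁, c₁', q₁, e₁, k₁⟩ := A.mob _ h₁
  obtain ⟨m₂, c₂, c₂', q₂, e₂, k₂⟩ := A.mob _ h₂
  obtain ⟨s₁, a₁, i₁, b₁⟩ := key u δ₁ δ₂ hu p₁ p₂ h₂ (m₂ * m₁) _ _
    (by rw [M.q_nsmul, e₁, smul_smul]) (A.mob_nsmul _ _ m₂ k₁)
  obtain ⟨s₂, a₂, i₂, b₂⟩ := key (-u) δ₂ δ₁ hu.neg p₂ p₁ (by rwa [neg_neg]) (m₁ * m₂) _ _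
    (by rw [M.q_nsmul, e₂, smul_smul]) (A.mob_nsmul _ _ m₁ k₂)
  refine ⟨_, _, _, _, (m₁ * m₂ : ℕ) * (δ₁ + δ₂), s₁, s₂, by positivity, A.mob_nsmul _ _ m₂ k₁,
    A.mob_nsmul _ _ m₁ k₂, ?_, a₁, a₂, div_mem i₁ i₂, fun V' h1 h2 => ⟨b₁ V' h1 h2, b₂ V' h1 h2⟩⟩
  rw [M.q_nsmul, M.q_nsmul, e₁, e₂]
  funext l
  simp only [Pi.sub_apply, Pi.smul_apply, Pi.add_apply, Pi.neg_apply, nsmul_eq_mul, smul_eq_mul,
    Pi.mul_apply, Pi.natCast_apply]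
  push_cast
  ring

/-- All invariant divisors are trivial on a centre that is contracted by an interior one. -/
theorem triv_iv (hE : EOut) (hN : SNg0) (hA : SKa) (hM : M.OK f) (hV : Ov V)
    (hx : ∀ l, ¬Tc V (xx 3 l)) {d x : M.J → ℚ} (hd : InG r C.U d) (h : Triv C.W V (C.P d))
    (hi : Iv r x) : Triv C.W V (C.P x) := by
  have A := hA 3 f M C hM
  have B := hE.bas 3 f C.W C.ok
  obtain ⟨n, h1⟩ := hd.far hi
  obtain ⟨n', h2⟩ := hd.far hi.neg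
  obtain ⟨m, c, c', hm, e, k⟩ := A.mob _ (h1 n le_rfl)
  obtain ⟨s, hs, hG⟩ := (hN 3 f C.W C.ok).ex _ V k.free hV
  have e' : C.W.q c' = m • C.P (n • d + x) := by rw [k.eq, e, map_nsmul]
  have h3 : Triv C.W V (C.P (n • d + x)) := ⟨m, c', s, hm, e',
    Triv.gen hE hN C.ok hV hx (by
      rw [← map_add, show n • d + x + (n' • d + -x) = ((n + n' : ℕ) : ℚ) • d by
        rw [Nat.cast_smul_eq_nsmul, add_smul]; abel, map_smul]
      exact h.smul B _) (A.semi _ (h2 n' le_rfl)) e' hs hG⟩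
  have h4 := h3.add B (h.smul B (-n))
  rwa [map_add, map_nsmul, neg_smul, Nat.cast_smul_eq_nsmul, add_neg_cancel_comm] at h4

/-- An effective trivial divisor that does not contain the centre does not meet it. -/
theorem off_of (hE : EOut) (hN : SNg0) {W : Mod 3} (hW : W.OK f) (hV : Ov V)
    (hx : ∀ l, ¬Tc V (xx 3 l)) {y : W.J → ℚ} (h0 : 0 ≤ y) (h : Triv W V y)
    (h1 : ∀ i, W.Thru V i → y i = 0) {V' : Vl 3} (h2 : V' ≤ V) (h3 : Ov V') (i : W.J)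
    (h4 : W.Thru V' i) : y i = 0 := by
  have B := hE.bas 3 f W hW
  obtain ⟨n, c, s, hn, e, hs⟩ := h
  have e1 : ∀ i, (c i : ℚ) = n * y i := fun i => by simpa using congrFun e i
  have k1 : (1 : KK 3) ∈ W.H c := fun V _ b hb => by
    rw [one_mul]
    refine hb _ (B.mon_mem b c fun j => ?_)
    have : (0 : ℚ) ≤ c j := e1 j ▸ mul_nonneg (Nat.cast_nonneg _) (h0 j)
    exact_mod_cast this
  have k2 : W.Gen V c 1 := B.gen_congr V 0 c 1 (fun j hj => by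
    have := e1 j
    rw [h1 j hj, mul_zero] at this
    exact_mod_cast this.symm) fun b _ => by rw [B.mon_zero, mul_one]; exact un_one
  have k3 := (hN 3 f W hW).val V' c i 1 k1 h3 h4 (gen_le' hE hW hV hx hs k1 k2 h2 h3)
  have k4 := e1 i
  rw [DV.one, eq_comm, neg_eq_zero] at k3
  rw [k3, Int.cast_zero, eq_comm, mul_eq_zero] at k4
  exact k4.resolve_left (Nat.cast_ne_zero.2 hn.ne')

open Classical in
/-- A contracted curve: the divisor is trivial on it. -/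
theorem triv_null (hE : EOut) (hA : SKa) (hM : M.OK f) {o : M.J} {Γ : DV (M.v o).kf}
    (L : Lv C.W (C.D.e o) (M.v o).pl Γ) {d : M.J → ℚ} {κ : ℚ} {m : ℕ} (hm : 0 < m)
    {c : C.W.J → ℤ} (e : C.W.q c = m • C.P (d - κ • M.q M.aa)) (c0 : c (C.D.e o) = 0)
    {T : Finset (KK 3)} (hT : C.W.Gens c T)
    (hn : ∀ s, GnS (T.image (M.v o).pl.π) Γ s → ∀ s' ∈ T.image (M.v o).pl.π, ¬NC Γ (s' / s)) :
    Triv C.W (lift (M.v o).pl Γ) (C.P d) := by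
  obtain ⟨s, hs, hG⟩ := hT.2 _ L.ov
  refine triv_pt hE hA hM hm e (s := s) fun V' h1 h2 =>
    gen_le hE C.ok hT (hT.1 s hs) L.ov hG (fun s' hs' h => ?_) h1 h2
  obtain ⟨h3, h4⟩ := L.pi_ratio c0 (hT.1 s' hs') hG
  exact hn _ ((L.gns_iff hT c0 hs).2 hG) _ (mem_image_of_mem _ hs') (h4 ▸ (nc_iff h3.1).2 h)

end RPen

open RPen in
theorem rowPen : OfPen := by
  classical
  intro hE hK hV hKv _ hKo f la b β Q M r K B o X Y Y' H ⟨w, hw⟩ hP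
  have hS := H.sit
  have hY := H.aok
  have hM := hS.ok
  have ho := hS.alive
  have A := hK.ka 3 f M B.C hM
  have BW := hE.bas 3 f B.C.W B.C.ok
  have BM := hE.bas 3 f M hM
  have hv : (M.v o).pl.o = B.C.W.v (B.C.D.e o) := (B.C.D.v o).symm
  have lv : ∀ {Γ}, M3.Cv (B.sd la b o X Y).x Γ → Lv B.C.W (B.C.D.e o) (M.v o).pl Γ := fun h =>
    lv_of B.C.ok BW.toBas1 hv h.bas
  have cst : ∀ y : (M.v o).kf, (∀ Z : VF (M.v o).kf, Z y = 0) → ∃ c, y = algebraMap ℂ _ c := by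
    intro y hy
    by_contra! h
    obtain ⟨Z, hZ⟩ := M3F.exists_der X.Co H.av.fin (M3F.tr_of_nc h)
    exact hZ (hy Z)
  have hO := BM.ov_v o
  have hx : ∀ l, ¬Tc (M.v o).O (xx 3 l) := fun l => by
    obtain ⟨c, hc⟩ := cst _ (hP _ (IntermediateField.subset_adjoin _ _ (Or.inl ⟨l, rfl⟩)))
    exact not_tc (hO _) hc
  have tv : Triv B.C.W (M.v o).O (B.C.P (M.nu + B.t • B.h)) := by
    obtain ⟨s, hs, hG⟩ := hY.T0.2 _ hO
    have c0 := H.c0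
    have hF : ∀ g ∈ Y.T0, g ∈ (M.v o).F 0 := fun g hg => by
      have := (BW.oc_v (B.C.D.e o) _ g).1 (hY.T0.1 g hg _ (BW.ov_v _))
      rwa [c0, neg_zero, B.C.D.v] at this
    have hu : Un (M.v o).O s := by
      have := (BW.gen_v (B.C.D.e o) _ s).1 (by rwa [B.C.D.v])
      rw [c0, neg_zero, B.C.D.v] at this
      exact (M.v o).un_O.2 this
    refine triv_pt hE hK.ka hM hY.m (B.pt_eq _ ▸ hY.c0) (s := s) fun V' h1 h2 =>
      gen_le hE B.C.ok hY.T0 (hY.T0.1 s hs) hO hG (fun s' hs' => ?_) h1 h2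
    obtain ⟨c, hc⟩ := cst _ (hP _ (IntermediateField.subset_adjoin _ _
      (Or.inr ⟨_, mem_image_of_mem _ hs, _, mem_image_of_mem _ hs', rfl⟩)))
    refine not_tc (c := c) (mul_mem (hF s' hs') hu.2.2 : s' * s⁻¹ ∈ (M.v o).O) ?_
    rw [div_eq_mul_inv, (M.v o).pl.mul _ (hF s' hs') _ hu.2.2, pi_inv (P := (M.v o).pl) hu,
      ← div_eq_mul_inv, hc]
  refine or_iff_not_imp_right.2 fun h1 => ?_
  simp only [SD.One, not_forall] at h1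
  obtain ⟨j, j', Γ, Γ', v1, n1, b1, v2, n2, b2, hj⟩ := h1
  have kv := hKo _ _ _ _ _ _ _ _ _ _ _ _ _ H
  have core : ∀ {j Γ}, M3.Cv (B.sd la b o X Y).x Γ →
      ¬Null (B.sd la b o X Y).x (B.sd la b o X Y).S1 Γ → (B.sd la b o X Y).β j Γ ≠ 0 →
      (B.sd la b o X Y).β j Γ = 1 ∧ ∀ l, l ≠ j → (B.sd la b o X Y).β l Γ = 0 :=
    fun {j Γ} h1 h2 h3 => by
    rcases kv Γ h1 h2 with ⟨l, h4⟩ | h4
    · obtain rfl : j = l := by_contra fun e => h3 (h4.2.2 j e)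
      exact h4.2
    · exact absurd (h4.1 j) h3
  obtain ⟨p, p', hp, hu⟩ : ∃ p p' : ℚ, (p ≠ 0 ∨ p' ≠ 0) ∧
      w (p • cs r j.1 + p' • cs r j'.1) = 0 := by
    by_cases h : w (cs r j.1) = 0
    · exact ⟨1, 0, Or.inl one_ne_zero, by simp [h]⟩
    · exact ⟨-w (cs r j'.1), _, Or.inr h, by simp [mul_comm]⟩
  have iu := ((H.cl.cs j.1).smul p).add ((H.cl.cs j'.1).smul p')
  obtain ⟨δ₁, p₁, h₁⟩ := hw _ iu hu
  obtain ⟨δ₂, p₂, h₂⟩ := hw _ iu.neg (by rw [map_neg, hu, neg_zero])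
  obtain ⟨c₁, c₁', c₂, c₂', n, s₁, s₂, hn, m₁, m₂, e, a₁, a₂, hφ, hG⟩ :=
    pen_sec hE hK.ng0 hK.ka hM H.dsc hO hx (B.iv_x H.cl _) iu tv p₁ p₂ h₁ h₂
  have ey : B.C.W.q (c₁' + -c₂') = n • (p • B.C.P (cs r j.1) + p' • B.C.P (cs r j'.1)) := by
    rw [← sub_eq_add_neg, B.C.W.q_sub, m₁.eq, m₂.eq, ← map_sub, e, map_smul, map_add, map_smul,
      map_smul]
  have yz : ∀ i, B.C.P (cs r j.1) i = 0 → B.C.P (cs r j'.1) i = 0 → (c₁' + -c₂') i = 0 :=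
    fun i k1 k2 => by
      have h1 := congrFun ey i
      simp only [Pi.smul_apply, Pi.add_apply, k1, k2, Mod.q_apply, smul_zero, add_zero] at h1
      exact_mod_cast h1
  have z0 : ∀ O : OC.Rp r o, B.C.P (cs r O.1) (B.C.D.e o) = 0 := fun O =>
    (ho _).trans (H.cl.cs_o O.2.1)
  have y0 := yz _ (z0 j) (z0 j')
  have gn : ∀ V', V' ≤ (M.v o).O → Ov V' → B.C.W.Gen V' (c₁' + -c₂') (s₁ / s₂) := fun V' h1 h2 => by
    rw [div_eq_mul_inv]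
    exact BW.gen_mul _ _ _ _ _ (hG _ h1 h2).1 (BW.gen_inv _ _ _ (hG _ h1 h2).2)
  have ord : ∀ {Γ}, M3.Cv (B.sd la b o X Y).x Γ → s₁ / s₂ ∈ (M.v o).F 0 ∧
      (Γ.v ((M.v o).pl.π (s₁ / s₂)) : ℚ) =
        -(n * (p * (B.sd la b o X Y).β j Γ + p' * (B.sd la b o X Y).β j' Γ)) := fun {Γ} h => by
    obtain ⟨h1, -, h2⟩ := ((lv h).gen_iff y0).1 (gn _ lift_le (lv h).ov)
    refine ⟨h1, ?_⟩
    rw [h2]
    simp only [OC.sd, mul_sum, ← sum_add_distrib]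
    push_cast
    refine congrArg _ (sum_congr rfl fun i _ => ?_)
    have h3 := congrFun ey i
    simp only [Pi.smul_apply, Pi.add_apply, Mod.q_apply, smul_eq_mul] at h3
    rw [Pi.add_apply, h3]
    ring
  refine ⟨(M.v o).pl.π (s₁ / s₂), ⟨_, hφ, (ord v1).1, rfl⟩, ?_, fun Γ'' v3 n3 hc => ?_⟩
  · by_contra! h
    obtain ⟨c, hc⟩ := cst _ h
    have h1 := (ord v1).2
    have h2 := (ord v2).2
    rw [hc, DV.cst, (core v1 n1 b1).1, (core v1 n1 b1).2 j' (Ne.symm hj)] at h1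
    rw [hc, DV.cst, (core v2 n2 b2).1, (core v2 n2 b2).2 j hj] at h2
    simp only [Int.cast_zero, mul_one, mul_zero, add_zero, zero_add, zero_eq_neg, mul_eq_zero,
      hn.ne', false_or] at h1 h2
    exact hp.elim (fun h => h h1) fun h => h h2
  have L := lv v3
  have hx' : ∀ l, ¬Tc (lift (M.v o).pl Γ'') (xx 3 l) := fun l h =>
    n3.1 l ((nc_iff (hO _)).2 h)
  have hT := (nc_iff (ord v3).1).1 hc
  rw [H.α_eq A]
  by_cases n4 : Null (B.C.sd la b o X Y').x (B.C.sd la b o X Y').S1 Γ''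
  swap
  · rcases hKv _ _ _ _ _ _ _ _ _ _ hS H.av H.as Γ'' v3 n4 with ⟨l, h4⟩ | ⟨h4, -⟩
    · exact h4.1
    have tv' := triv_null hE hK.ka hM L hY.m (B.pt_eq _ ▸ hY.c1) H.c1 hY.T1 n3.2
    have off : ∀ (O : OC.Rp r o) V', V' ≤ lift (M.v o).pl Γ'' → Ov V' → ∀ i, B.C.W.Thru V' i →
        B.C.P (cs r O.1) i = 0 := fun O V' k1 k2 => by
      have k0 := A.mono _ (cs_nonneg (r := r) O.1)
      refine off_of hE hK.ng0 B.C.ok L.ov hx' k0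
        (triv_iv hE hK.ng0 hK.ka hM L.ov hx' hY.inn tv' (H.cl.cs O.1)) (fun i hi => ?_) k1 k2
      by_cases e : i = B.C.D.e o
      · exact e ▸ z0 O
      have k3 := (sum_eq_zero_iff_of_nonneg fun i _ => mul_nonneg (k0 i)
        (Int.cast_nonneg (L.tr_nonneg i))).1 (H.β_zero A h4 O) i (mem_univ _)
      exact (mul_eq_zero.1 k3).resolve_right
        (Int.cast_ne_zero.2 ((L.tr_pos_iff i).2 ⟨e, hi⟩).ne')
    refine absurd hT (allc L.ov fun V' k1 k2 => ?_).2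
    have k3 : Ov V' := ov_of k2 fun l => Kc.le ⟨L.ov _, hx' l⟩ k1 k2
    obtain ⟨a, ha⟩ := B.C.ok.cov V' k3
    have k4 := BW.gen_congr V' _ 0 _ (fun i hi => yz i (off j V' k1 k3 i hi) (off j' V' k1 k3 i hi))
      (gn V' (k1.trans lift_le) k3) a ha
    rw [BW.mon_zero, mul_one] at k4
    exact k4.2.1
  have tv' := triv_null hE hK.ka hM L H.as.m (κ := la + Y'.t1 * (B.C.h o / M.a o))
    (d := M.nu + Y'.t1 • B.C.h) (H.as.c1.trans (congrArg (fun x => Y'.m • B.C.P x)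
      (funext fun j => by
        simp only [Ch.pt, Ch.hp, Mod.ex, Mod.nu, Mod.aa, Pi.add_apply, Pi.sub_apply,
          Pi.smul_apply, Mod.q_apply, smul_eq_mul, Int.cast_natCast]
        ring))) (H.co H.as.c1 (M3CH.RISem.pt_zero B.C o hM hS.zero _)) H.as.T1 n4.2
  obtain ⟨g₁, g₂⟩ := hG _ lift_le L.ov
  obtain ⟨W', D', h, i, h1, h2⟩ := null_dl hE hK hM ho L.ov lift_le
    (fun c L' hp n => not_nn_of_triv hE hK.ng0 hK.ka hM L.ov hx' H.as.inn tv' hp n) m₁ m₂ a₁ a₂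
    g₁ g₂ hT
  have h3 : Exp (dvf f la) (M.v o).pl.o 0 := by
    have := exp_v hM la o
    rwa [hS.zero, Rat.cast_zero] at this
  have h4 : (B.sd la b o X Y).ex Γ'' = W'.ex la i :=
    M3Z.Fl.exp_eq (f := f) (M := W') (P := (M.v o).pl) (G := Γ''.pl) (e := D'.e (B.C.D.e o))
      ⟨h.ok, hE.bas 3 f W' h.ok, hE.der 3 f W' h.ok, hE.cv 3 f W' h.ok, rowUnr,
        ((D'.v _).trans (B.C.D.v o)).symm, v3.sur, h1⟩ h3 H.av.rd
      ((hV f la b β Q M B.C o X Y' hS H.av H.as).exp Γ'' v3)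
  have h5 : (B.C.sd la b o X Y').α Γ'' = (refine B.C D' h).P (M.ex la) i := by
    rw [← H.α_eq A, H.α_T, B.T_apply]
    exact sum_pb hE h.ok B.C.ok D' L v3.sur h1 ((ho _).trans hS.zero)
  have h6 : M.ex la = M.nu - la • M.q M.aa := funext fun j => by
    simp [Mod.ex, Mod.nu, Mod.aa]
  rw [h4, h5, h6, map_sub, map_smul, (hK.ka 3 f M (refine B.C D' h) hM).aa]
  have h7 : (W'.k i : ℚ) + 1 - (refine B.C D' h).P M.nu i = 0 := h2
  show (W'.k i : ℚ) + 1 - la * W'.a i = (refine B.C D' h).P M.nu i - la * ((W'.a i : ℤ) : ℚ)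
  rw [Int.cast_natCast]
  linarith

end Pool.Agent.MP_5d9b3c_ag.P3O
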