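import Pool.Agent.MP_5d9b3c_ag.P3O.Spec
import Pool.Agent.MP_ee8c61_ag.M3CH.RISem

/-! Invariant vectors; the datum of the classes in terms of the datum of the chamber. -/

namespace Pool.Agent.MP_5d9b3c_ag.P3O

open Pool.Agent.MP_ee8c61_ag
open M3 M3E M3K M3RESID M3F H59 Finset

section Iv

variable {J : Type} {r : J → J} {d d' : J → ℚ}

theorem Iv.zero : Iv r (0 : J → ℚ) := fun _ => rfl

theorem Iv.add (h : Iv r d) (h' : Iv r d') : Iv r (d + d') := fun j => by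
  rw [Pi.add_apply, Pi.add_apply, h j, h' j]

theorem Iv.neg (h : Iv r d) : Iv r (-d) := fun j => by rw [Pi.neg_apply, Pi.neg_apply, h j]

theorem Iv.sub (h : Iv r d) (h' : Iv r d') : Iv r (d - d') := fun j => by
  rw [Pi.sub_apply, Pi.sub_apply, h j, h' j]

theorem Iv.smul (h : Iv r d) (s : ℚ) : Iv r (s • d) := fun j => by
  rw [Pi.smul_apply, Pi.smul_apply, h j]

theorem Iv.nsmul (h : Iv r d) (n : ℕ) : Iv r (n • d) := fun j => by
  rw [Pi.smul_apply, Pi.smul_apply, h j]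

theorem cs_nonneg [DecidableEq J] (O : J) : 0 ≤ cs r O := fun j => by
  simp only [cs, Pi.zero_apply]
  split_ifs <;> norm_num

end Iv

variable {f : Po 3} {M : Mod 3} {r : M.J → M.J} {o : M.J} {d : M.J → ℚ}

theorem Iv.of_q {c : M.J → ℤ} (h : Iv r (M.q c)) : Iv r c := fun j =>
  Int.cast_injective (α := ℚ) (h j)

theorem Iv.q {c : M.J → ℤ} (h : Iv r c) : Iv r (M.q c) := fun j =>
  congrArg (Int.cast : ℤ → ℚ) (h j)

namespace Cl

variable (h : Cl M r o)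
include h

theorem nu : Iv r M.nu := fun j => by simp only [Mod.nu, h.k j]

theorem aa : Iv r (M.q M.aa) := fun j => by simp only [Mod.q_apply, Mod.aa, h.a j]

theorem ex (la : ℚ) : Iv r (M.ex la) := fun j => by simp only [Mod.ex, h.k j, h.a j]

theorem cs (O : M.J) : Iv r (cs r O) := fun j => by simp only [P3O.cs, h.idem]

theorem e : Iv r (M.q (M.e o)) := fun j => by simp only [Mod.q_apply, Mod.e_apply, h.one]

theorem cs_o {O : M.J} (hO : O ≠ o) : P3O.cs r O o = 0 :=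
  if_neg fun e => hO (e.symm.trans ((h.one o).2 rfl))

/-- The class of a divisor other than `o`. -/
def rp {j : M.J} (hj : j ≠ o) : OC.Rp r o := ⟨r j, fun e => hj ((h.one j).1 e), h.idem j⟩

/-- An invariant vector is a combination of classes. -/
theorem dec (hd : Iv r d) (h0 : d o = 0) : d = ∑ O : OC.Rp r o, d O.1 • P3O.cs r O.1 := by
  funext j
  simp only [Finset.sum_apply, Pi.smul_apply, smul_eq_mul]
  by_cases hj : j = o
  · rw [hj, h0]
    exact (sum_eq_zero fun O _ => by rw [h.cs_o O.2.1, mul_zero]).symm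
  · rw [Fintype.sum_eq_single (h.rp hj) fun O hO => by
      rw [P3O.cs, if_neg fun e => hO (Subtype.ext e.symm), mul_zero]]
    exact ((mul_one _).trans (hd j)).symm.trans (congrArg _ (if_pos rfl).symm)

end Cl

theorem InG.mem {U : Set (M.J → ℚ)} (h : InG r U d) : d ∈ U := by
  obtain ⟨δ, -, h⟩ := h 0 Iv.zero
  simpa using h

theorem InG.far {C : Ch f M} (h : InG r C.U d) {x : M.J → ℚ} (hx : Iv r x) :
    ∃ n₀ : ℕ, ∀ n ≥ n₀, n • d + x ∈ C.U := by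
  obtain ⟨δ, h1, h2⟩ := h x hx
  obtain ⟨n₀, h3⟩ := exists_nat_gt δ⁻¹
  refine ⟨n₀, fun n hn => ?_⟩
  have h4 := C.smul _ h2 δ⁻¹ (inv_pos.2 h1)
  rw [smul_add, smul_smul, inv_mul_cancel₀ h1.ne', one_smul] at h4
  have h6 := C.add _ (C.smul _ h.mem _ (sub_pos.2 (h3.trans_le (Nat.cast_le.2 hn)))) _ h4
  rwa [← add_assoc, ← add_smul, sub_add_cancel, Nat.cast_smul_eq_nsmul] at h6

theorem InG.small {C : Ch f M} (h : InG r C.U d) {x : M.J → ℚ} (hx : Iv r x) :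
    ∃ δ : ℚ, 0 < δ ∧ ∀ ε, 0 < ε → ε ≤ δ → d + ε • x ∈ C.U := by
  obtain ⟨δ, h1, h2⟩ := h x hx
  refine ⟨δ, h1, fun ε h3 h4 => ?_⟩
  rcases h4.eq_or_lt with rfl | h4
  · exact h2
  have := C.add _ (C.smul _ h2 _ (div_pos h3 h1)) _
    (C.smul _ h.mem _ (sub_pos.2 ((div_lt_one h1).2 h4)))
  rwa [smul_add, smul_smul, div_mul_cancel₀ _ h1.ne', add_right_comm, ← add_smul,
    add_sub_cancel, one_smul] at this

namespace OC

variable (B : OC f M r) {la : ℚ}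

theorem pt_eq (t : ℚ) :
    B.pt la o t = M.nu + t • B.h - (la + t * (B.h o / M.a o)) • M.q M.aa := by
  funext j
  simp [OC.pt, OC.hp, Mod.ex, Mod.nu, Mod.aa]
  ring

theorem hp_o (hM : M.OK f) : B.hp o o = 0 := by
  have : (M.a o : ℚ) ≠ 0 := Nat.cast_ne_zero.2 (hM.pos o).ne'
  simp [OC.hp, Mod.aa, this]

theorem pt_o (hM : M.OK f) (h0 : M.ex la o = 0) (t : ℚ) : B.pt la o t o = 0 := by
  simp [OC.pt, B.hp_o hM, h0]

theorem iv_x (h : Cl M r o) (t : ℚ) : Iv r (M.nu + t • B.h) := h.nu.add (B.iv.smul t)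

theorem iv_hp (h : Cl M r o) : Iv r (B.hp o) := B.iv.sub (h.aa.smul _)

theorem iv_pt (h : Cl M r o) (t : ℚ) : Iv r (B.pt la o t) := (h.ex la).add ((B.iv_hp h).smul t)

theorem pt_mem {t : ℚ} {u : M.J → ℚ} (h : M.nu + t • B.h + u ∈ B.C.U) :
    B.pt la o t + u ∈ B.C.U := by
  have := B.tr _ h (-(la + t * (B.h o / M.a o)))
  rwa [add_right_comm, neg_smul, ← sub_eq_add_neg, ← B.pt_eq] at this

theorem pt_inn {t : ℚ} (h : InG r B.C.U (M.nu + t • B.h)) : InG r B.C.U (B.pt la o t) :=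
  fun u hu => (h u hu).imp fun _ h => ⟨h.1, B.pt_mem h.2⟩

/-- The order along `Γ` of the trace of the mobile part. -/
noncomputable def T (o : M.J) (Γ : DV (M.v o).kf) : (M.J → ℚ) →ₗ[ℚ] ℚ where
  toFun d := ∑ i, B.C.P d i * B.C.W.tr (M.v o).pl Γ i
  map_add' d d' := by simp only [map_add, Pi.add_apply, add_mul, sum_add_distrib]
  map_smul' s d := by
    simp only [map_smul, Pi.smul_apply, smul_eq_mul, mul_sum, mul_assoc, RingHom.id_apply]

theorem T_apply (Γ : DV (M.v o).kf) (d : M.J → ℚ) :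
    B.T o Γ d = ∑ i, B.C.P d i * B.C.W.tr (M.v o).pl Γ i := rfl

end OC

variable {la : ℚ} {b : Polynomial ℂ} {β : Fin 3 → PX 3 (KK 3)} {Q : PX 3 (KK 3)}
  {K : Subfield (KK 3)} {B : OC f M r} {X : Ch.AV (M := M) o} {Y Y' : B.C.AS o}

theorem β_T (O : OC.Rp r o) (Γ : DV (M.v o).kf) :
    (B.sd la b o X Y).β O Γ = B.T o Γ (cs r O.1) := rfl

theorem β_T' (j : B.C.Nb o) (Γ : DV (M.v o).kf) :
    (B.C.sd la b o X Y').β j Γ = B.T o Γ (M.q (M.e j.1)) := rfl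

theorem T_nb (A : Ka B.C) (h0 : d o = 0) (Γ : DV (M.v o).kf) :
    B.T o Γ d = ∑ j : B.C.Nb o, d j.1 * (B.C.sd la b o X Y').β j Γ := by
  rw [B.T_apply, M3CH.RISem.P_sum B.C o A.dead d h0]
  simp only [β_T', B.T_apply, Finset.sum_apply, Pi.smul_apply, smul_eq_mul, sum_mul, mul_sum,
    mul_assoc]
  exact sum_comm

theorem T_rp (h : Cl M r o) (hd : Iv r d) (h0 : d o = 0) (Γ : DV (M.v o).kf) :
    B.T o Γ d = ∑ O : OC.Rp r o, d O.1 * (B.sd la b o X Y).β O Γ := by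
  conv_lhs => rw [h.dec hd h0, map_sum]
  simp only [map_smul, smul_eq_mul, β_T]

namespace St

variable (h : St f la b β Q M r K B o X Y Y')
include h

theorem th_eq (t : ℚ) (Γ : DV (M.v o).kf) :
    (B.sd la b o X Y).th t Γ = B.T o Γ (B.pt la o t) :=
  (T_rp h.cl (B.iv_pt h.cl t) (B.pt_o h.sit.ok h.sit.zero t) Γ).symm

theorem α_T (Γ : DV (M.v o).kf) : (B.sd la b o X Y).α Γ = B.T o Γ (M.ex la) :=
  (T_rp h.cl (h.cl.ex la) h.sit.zero Γ).symm

theorem α_eq (A : Ka B.C) (Γ : DV (M.v o).kf) :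
    (B.sd la b o X Y).α Γ = (B.C.sd la b o X Y').α Γ :=
  (h.α_T Γ).trans (T_nb A h.sit.zero Γ)

theorem β_eq (A : Ka B.C) (O : OC.Rp r o) (Γ : DV (M.v o).kf) : (B.sd la b o X Y).β O Γ =
    ∑ j : B.C.Nb o, cs r O.1 j.1 * (B.C.sd la b o X Y').β j Γ :=
  T_nb A (h.cl.cs_o O.2.1) Γ

theorem co {c : B.C.W.J → ℤ} {m : ℕ} (e : B.C.W.q c = m • B.C.P d) (hd : d o = 0) :
    c (B.C.D.e o) = 0 := by
  have := congrFun e (B.C.D.e o)
  rw [Pi.smul_apply, h.sit.alive, hd, smul_zero, Mod.q_apply] at this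
  exact_mod_cast this

theorem c0 : Y.c0 (B.C.D.e o) = 0 := h.co h.aok.c0 (B.pt_o h.sit.ok h.sit.zero _)

theorem c1 : Y.c1 (B.C.D.e o) = 0 := h.co h.aok.c1 (B.pt_o h.sit.ok h.sit.zero _)

theorem ptj {j : M.J} (hj : j ≠ o) : (B.pt la o Y.t1 + Y.ε • cs r j) o = 0 := by
  rw [Pi.add_apply, Pi.smul_apply, B.pt_o h.sit.ok h.sit.zero, h.cl.cs_o hj, smul_zero, add_zero]

theorem cj {j : M.J} (hj : j ≠ o) : Y.cj j (B.C.D.e o) = 0 := h.co (h.aok.cj j) (h.ptj hj)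

/-- A core curve of the chamber is a core curve of the class. -/
theorem core (A : Ka B.C) {j : B.C.Nb o} {Γ : DV (M.v o).kf}
    (hc : (B.C.sd la b o X Y').Core j Γ) : (B.sd la b o X Y).Core (h.cl.rp j.2.1) Γ := by
  have e : ∀ O : OC.Rp r o, (B.sd la b o X Y).β O Γ = cs r O.1 j.1 := fun O => by
    rw [h.β_eq A, Fintype.sum_eq_single j fun k hk => by rw [hc.2.2 k hk, mul_zero], hc.2.1,
      mul_one]
  exact ⟨hc.1.trans (h.α_eq A Γ).symm, (e _).trans (if_pos rfl), fun O hO =>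
    (e O).trans (if_neg fun q => hO (Subtype.ext q.symm))⟩

theorem β_zero (A : Ka B.C) {Γ : DV (M.v o).kf} (hc : ∀ j, (B.C.sd la b o X Y').β j Γ = 0)
    (O : OC.Rp r o) : (B.sd la b o X Y).β O Γ = 0 := by
  rw [h.β_eq A]
  exact sum_eq_zero fun j _ => by rw [hc, mul_zero]

end St

end Pool.Agent.MP_5d9b3c_ag.P3O
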