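import Pool.Agent.MP_5d9b3c_ag.P3O.Kit
import Pool.Agent.MP_5d9b3c_ag.P3T.KK
import Pool.Agent.MP_5d9b3c_ag.P3G.Rep
import Pool.Agent.MP_ee8c61_ag.M3RESID.RAV

/-! The orbits of the Galois group on the divisors; invariant residues. -/

namespace Pool.Agent.MP_5d9b3c_ag.P3O

open Pool.Agent.MP_ee8c61_ag
open M3 M3E M3K M3RESID M3F H59 Finset P3 P3T P3G

noncomputable section

variable {F : Type} [Field F] [Algebra F ℂ]

section Act

variable {L : Type} [Field L] [Algebra ℂ L] (A : GA F L)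

/-- The action on the field as a vector space. -/
def saL : SA F L where
  a σ := (A.ρ σ).toAddMonoidHom
  one x := by simp
  mul σ τ x := by simp
  smul := A.smul
  cont := A.cont

/-- The action on vector fields. -/
def saV {n : ℕ} (C : Co L n) : SA F (VF L) where
  a σ := (A.si σ).vfE.toAddMonoidHom
  one x := by
    show (A.si 1).vf x = x
    rw [A.si_one, SI.vf_refl]
  mul σ τ x := by
    show (A.si (σ * τ)).vf x = _
    rw [A.si_mul]
    rfl
  smul σ c x := (A.si σ).vf_csmul c x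
  cont x := by
    obtain ⟨S, hS⟩ := ((saL A).prod (saL A)).exists_df univ fun i => (C.z i, x (C.z i))
    refine ⟨S, fun σ h => sub_eq_zero.1 (C.span _ fun i => ?_)⟩
    have h1 : (A.si σ).e (C.z i) = C.z i := congrArg Prod.fst (hS i (mem_univ i) σ h)
    have h2 : (A.si σ).e (x (C.z i)) = x (C.z i) := congrArg Prod.snd (hS i (mem_univ i) σ h)
    show (A.si σ).vf x (C.z i) - x (C.z i) = 0
    rw [sub_eq_zero]
    conv_lhs => rw [← h1, SI.vf_e, h2]

end Act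

variable (F) (M : Mod 3)

/-- Conjugate divisors. -/
def cj : Setoid M.J where
  r j j' := ∃ σ : Gm F, M.v j' = ((gaK F 3).si σ).dv (M.v j)
  iseqv := ⟨fun j => ⟨1, by rw [GA.si_one, SI.dv_refl]⟩,
    fun ⟨σ, h⟩ => ⟨σ⁻¹, by rw [h, GA.si_inv, SI.symm_dv_dv]⟩,
    fun ⟨σ, h⟩ ⟨τ, h'⟩ => ⟨τ * σ, by rw [h', h, GA.si_mul, SI.dv_trans]⟩⟩

/-- The representative of the orbit. -/
def rep (j : M.J) : M.J := (Quotient.mk (cj F M) j).out

variable {F M} {f : Po 3} {o : M.J}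

theorem rep_cj (j : M.J) : ∃ σ : Gm F, M.v (rep F M j) = ((gaK F 3).si σ).dv (M.v j) :=
  (cj F M).symm (Quotient.mk_out (s := cj F M) j)

theorem rep_eq {j j' : M.J} {σ : Gm F} (h : M.v j' = ((gaK F 3).si σ).dv (M.v j)) :
    rep F M j = rep F M j' := congrArg Quotient.out (Quotient.sound (s := cj F M) ⟨σ, h⟩)

theorem iv_of {R : Type} {d : M.J → R}
    (h : ∀ (σ : Gm F) j j', M.v j' = ((gaK F 3).si σ).dv (M.v j) → d j' = d j) :
    Iv (rep F M) d := fun j => (rep_cj j).elim fun σ e => h σ _ _ e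

theorem cl_rep (hM : M.OK f) (hf : ∀ σ : Gm F, MvPolynomial.map (σ : ℂ →+* ℂ) f = f)
    (hO : (gaK F 3).InvO (M.v o)) : Cl M (rep F M) o := by
  have h1 : ∀ j, (cj F M).r o j → j = o := fun j ⟨σ, e⟩ =>
    hM.inj _ _ (by rw [e, GA.invO_iff.1 hO σ])
  refine ⟨fun j => (rep_cj (F := F) j).elim fun σ e => (rep_eq e).symm, fun j => ⟨fun e =>
    h1 j (e ▸ Quotient.mk_out (s := cj F M) j), fun e => h1 _ (e ▸ rep_cj j)⟩,
    iv_of fun σ j j' e => ?_, iv_of fun σ j j' e => ?_⟩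
  · have h2 := ((gaK F 3).si σ).dv_e (M.v j) (ip 3 f)
    rw [← e, GA.si_e, gaK_ip, hf, v_f hM, v_f hM] at h2
    exact_mod_cast h2
  · have h2 := ((gaK F 3).si σ).exp (exp_v hM 0 j)
    rw [← e, GA.invD_iff.1 (invD_dvf hf 0) σ, map_ratCast] at h2
    obtain ⟨b, hb⟩ := hM.ne j'
    have h3 := Rat.cast_injective ((exp_v hM 0 j').uniq h2 (hM.dv b j' hb).2.1)
    simpa [Mod.ex] using h3

variable [Algebra.IsAlgebraic F ℂ]

theorem dsc_rep (E : EOut) (hM : M.OK f) (hf : ∀ σ : Gm F, MvPolynomial.map (σ : ℂ →+* ℂ) f = f)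
    (hp : ∀ (σ : Gm F) j, ∃ j', M.v j' = ((gaK F 3).si σ).dv (M.v j)) :
    Dsc M (rep F M) (gaK F 3).fix := by
  intro c hc g hg
  have B := E.bas 3 f M hM
  have H := E.h 3 f M hM c
  let W : Submodule ℂ (KK 3) :=
    { carrier := M.H c
      zero_mem' := fun V _ b _ => by rw [zero_mul]; exact zero_mem _
      add_mem' := fun h h' V hV => B.oc_add V c _ _ (h V hV) (h' V hV)
      smul_mem' := fun a x h V hV b hb => by
        rw [Algebra.smul_def, mul_assoc]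
        exact mul_mem ((ip 3).commutes a ▸ hV _) (h V hV b hb) }
  refine (saL (gaK F 3)).desc W (fun σ x hx => ?_) hg
  obtain ⟨⟨n, p, e⟩, h2⟩ := (H x).1 hx
  refine (H _).2 ⟨⟨n, MvPolynomial.map (σ : ℂ →+* ℂ) p, ?_⟩, fun j => ?_⟩
  · rw [← gaK_ip, ← e, map_mul, map_pow, gaK_ip, hf]
    rfl
  · obtain ⟨j', e'⟩ := hp σ⁻¹ j
    have h3 := ((gaK F 3).si σ).e_mem_F.2 (h2 j')
    rw [← hc j', ← rep_eq e', hc j, e', GA.si_inv, SI.dv_symm_dv] at h3
    exact h3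

/-- The residue of an invariant primitive can be chosen invariant. -/
theorem av_inv {la : ℚ} {β : Fin 3 → PX 3 (KK 3)} (hM : M.OK f)
    (hf : ∀ σ : Gm F, MvPolynomial.map (σ : ℂ →+* ℂ) f = f) (hβ : (gaK F 3).InvV (bf la β))
    (hO : (gaK F 3).InvO (M.v o)) {X : Ch.AV (M := M) o} (hX : X.OK f la β) :
    ∃ X' : Ch.AV (M := M) o, X'.OK f la β ∧ ((gaK F 3).res (M.v o).pl hO).InvD X'.d ∧
      ((gaK F 3).res (M.v o).pl hO).InvV X'.v := by
  have cp := GA.cpt_iff.1 ((gaK F 3).res_cpt (M.v o).pl hO)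
  have hd := GA.invD_iff.1 (invD_dvf (F := F) hf la)
  let W : Submodule ℂ (VF (M.v o).kf) :=
    { carrier := {w | ∃ u ∈ (dvf f la).Ex, (M.v o).pl.Rs u w}
      zero_mem' := ⟨0, zero_mem _, Pl.Rs.zero⟩
      add_mem' := fun ⟨u, a, h⟩ ⟨u', a', h'⟩ => ⟨_, add_mem a a', h.add h'⟩
      smul_mem' := fun c w ⟨u, a, h⟩ => ⟨_, Dv.cst_mem _ c a, by
        have := h.smul ((M.v o).pl.cst c).1
        rwa [((M.v o).pl.cst c).2, algebraMap_smul _ c w] at this⟩ }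
  obtain ⟨u, u1, u2⟩ := hX.rv
  obtain ⟨y, y1, w, w1, w2⟩ := (saV ((gaK F 3).res (M.v o).pl hO) X.Co).affine W (x := X.v)
    fun σ => by
      have h1 := ((cp σ).rs u2).sub u2
      rw [SI.vf_sub, GA.invV_iff.1 hβ σ, sub_sub_sub_cancel_left] at h1
      exact ⟨_, sub_mem u1 (hd σ ▸ ((gaK F 3).si σ).exa u1), h1⟩
  refine ⟨{ X with v := y }, ⟨hX.fin, hX.q0, hX.ψ0, hX.rat, hX.rd, u - w, sub_mem u1 w1, ?_⟩,
    GA.invD_iff.2 fun σ => ?_, GA.invV_iff.2 y1⟩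
  · have := u2.add w2
    rwa [add_sub_cancel, sub_add] at this
  · have := (cp σ).rsD_pl hX.rd
    rw [hd σ] at this
    exact this.uniq hX.rd (kf_lift hM rfl)

end

end Pool.Agent.MP_5d9b3c_ag.P3O
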